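import Pool.Agent.Helper18.CL.Defs
import Pool.Agent.Helper60.CL.Nm

/-!
# CB for a prime `ℓ`: finitely many finite extensions embed into one
-/

set_option autoImplicit false

namespace Pool.Agent.Helper94.CL

open NumberField Polynomial Pool.Agent.Helper4.CB Pool.Agent.Helper18.CL

/-- finitely many finite extensions of `K` embed into one finite extension -/
theorem exists_comp (K : Type) [Field K] {ι : Type} [Finite ι] (L : ι → Type)
    [∀ i, Field (L i)] [∀ i, Algebra K (L i)] [∀ i, FiniteDimensional K (L i)] :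
    ∃ (M : Type) (_ : Field M) (_ : Algebra K M), FiniteDimensional K M ∧
      ∀ i, Nonempty (L i →ₐ[K] M) := by
  let f : ∀ i, L i →ₐ[K] AlgebraicClosure K := fun i => IsAlgClosed.lift
  let E : ι → IntermediateField K (AlgebraicClosure K) := fun i => (f i).fieldRange
  have hE : ∀ i, FiniteDimensional K (E i) := fun i =>
    LinearEquiv.finiteDimensional (AlgEquiv.ofInjectiveField (f i)).toLinearEquiv
  have hfin : FiniteDimensional K (⨆ i, E i : IntermediateField K (AlgebraicClosure K)) :=
    IntermediateField.finiteDimensional_iSup_of_finite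
  refine ⟨(⨆ i, E i : IntermediateField K (AlgebraicClosure K)), inferInstance, inferInstance,
    hfin, fun i => ⟨?_⟩⟩
  exact (IntermediateField.inclusion (le_iSup E i)).comp (f i).rangeRestrict

/-- the same for all members of a finite family of properties which pass to larger fields -/
theorem exists_comp_of (K : Type) [Field K] {ι : Type} [Finite ι]
    (P : ι → ∀ (L : Type) [Field L] [Algebra K L], Prop)
    (hP : ∀ i, ∃ (L : Type) (_ : Field L) (_ : Algebra K L), FiniteDimensional K L ∧ P i L)
    (hmap : ∀ i, ∀ (L M : Type) [Field L] [Field M] [Algebra K L] [Algebra K M],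
      (L →ₐ[K] M) → P i L → P i M) :
    ∃ (M : Type) (_ : Field M) (_ : Algebra K M), FiniteDimensional K M ∧ ∀ i, P i M := by
  choose L hF hA hfd hL using hP
  obtain ⟨M, _, _, hM, h⟩ := exists_comp K L
  exact ⟨M, _, _, hM, fun i => hmap i (L i) M (h i).some (hL i)⟩

/-- **ALG for finitely many primes**: one finite extension for all members of a finite family of
exponents (`isNm_map` of `Helper18.CL.Frame` is the hypothesis `hmap`) -/
theorem alg_family_of
    (hmap : ∀ {F E : Type} [Field F] [Field E] [Algebra F E] {l : ℕ}, l ≠ 0 → ∀ {a b : F},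
      IsNm l a b → IsNm l (algebraMap F E a) (algebraMap F E b))
    (K : Type) [Field K] [NumberField K] {ι : Type} [Finite ι] (l J : ι → ℕ)
    (hl : ∀ i, l i ≠ 0) (h : ∀ i, AlgStmtL K (l i) (J i)) :
    ∃ (L : Type) (_ : Field L) (_ : Algebra K L), FiniteDimensional K L ∧
      ∀ i, (∃ ζ : L, IsPrimitiveRoot ζ (l i)) ∧
        ∀ a b : K, a ≠ 0 → b ≠ 0 →
          (∀ p : Pl K, BadL (l i) (J i) p → p.valuation K a = 1 ∧ p.valuation K b = 1) →
          IsNm (l i) (algebraMap K L a) (algebraMap K L b) := by
  refine exists_comp_of K (fun i L _ _ => (∃ ζ : L, IsPrimitiveRoot ζ (l i)) ∧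
        ∀ a b : K, a ≠ 0 → b ≠ 0 →
          (∀ p : Pl K, BadL (l i) (J i) p → p.valuation K a = 1 ∧ p.valuation K b = 1) →
          IsNm (l i) (algebraMap K L a) (algebraMap K L b)) h ?_
  intro i L M _ _ _ _ f ⟨⟨ζ, hζ⟩, hL⟩
  refine ⟨⟨f ζ, hζ.map_of_injective f.toRingHom.injective⟩, fun a b ha hb hp => ?_⟩
  let _ : Algebra L M := f.toRingHom.toAlgebra
  have h1 := hmap (E := M) (hl i) (hL a b ha hb hp)
  have h2 : ∀ x : K, algebraMap L M (algebraMap K L x) = algebraMap K M x := fun x => f.commutes x
  rwa [h2, h2] at h1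

/-- **ALG for finitely many primes**: one finite extension for all members of a finite family of
exponents -/
theorem alg_family (K : Type) [Field K] [NumberField K] {ι : Type} [Finite ι] (l J : ι → ℕ)
    (hl : ∀ i, l i ≠ 0) (h : ∀ i, AlgStmtL K (l i) (J i)) :
    ∃ (L : Type) (_ : Field L) (_ : Algebra K L), FiniteDimensional K L ∧
      ∀ i, (∃ ζ : L, IsPrimitiveRoot ζ (l i)) ∧
        ∀ a b : K, a ≠ 0 → b ≠ 0 →
          (∀ p : Pl K, BadL (l i) (J i) p → p.valuation K a = 1 ∧ p.valuation K b = 1) →
          IsNm (l i) (algebraMap K L a) (algebraMap K L b) :=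
  alg_family_of (fun hl _ _ h => Pool.Agent.Helper60.CL.isNm_map hl h) K l J hl h

end Pool.Agent.Helper94.CL
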